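import Pool.Agent.U668.MV3.SP2

/-!
# Package SP of project MV3: the spectral density of the odd powers of `Im A`
-/

set_option autoImplicit false

namespace Pool.Agent.U668.MV3

open Finset Pool.Agent.U398.MV Complex

noncomputable section

/-- the binomial coefficients of `((z - z̄) / 2i)^m` -/
def cc (m j : ℕ) : ℂ := (m.choose j : ℂ) * (-1) ^ (m - j) / (2 * I) ^ m

theorem norm_cc (m j : ℕ) : ‖cc m j‖ = (m.choose j : ℝ) / 2 ^ m := by
  unfold cc
  rw [norm_div, norm_mul, norm_pow, norm_pow, norm_mul]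
  simp

theorem norm_cc_le (m j : ℕ) : ‖cc m j‖ ≤ 1 := by
  rw [norm_cc, div_le_one (by positivity)]
  exact_mod_cast Nat.choose_le_two_pow m j

/-- the coefficient of a pair of tuples -/
def ww (α : ℕ → ℂ) {r s : ℕ} (f : Fin r → ℕ) (h : Fin s → ℕ) : ℂ :=
  (∏ i, α (f i) / ((Real.sqrt (f i) : ℝ) : ℂ)) *
    (starRingEnd ℂ) (∏ i, α (h i) / ((Real.sqrt (h i) : ℝ) : ℂ))

theorem norm_ww (α : ℕ → ℂ) {X r s : ℕ} {f : Fin r → ℕ} {h : Fin s → ℕ} (hf : f ∈ TX X r)
    (hh : h ∈ TX X s) : ‖ww α f h‖ = WW α (pr f) * WW α (pr h) := by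
  unfold ww
  rw [norm_mul, RCLike.norm_conj, norm_prod, norm_prod, WW_pr α hf, WW_pr α hh]
  congr 1
  · refine Finset.prod_congr rfl fun i _ => ?_
    rw [norm_div, Complex.norm_real, Real.norm_of_nonneg (Real.sqrt_nonneg _)]
  · refine Finset.prod_congr rfl fun i _ => ?_
    rw [norm_div, Complex.norm_real, Real.norm_of_nonneg (Real.sqrt_nonneg _)]

/-- the coefficients of `(Im A)^m` -/
def gq (α : ℕ → ℂ) (X m : ℕ) (q : ℕ × ℕ) : ℂ :=
  ∑ j ∈ Finset.range (m + 1), cc m j *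
    ∑ f ∈ TX X j, ∑ h ∈ TX X (m - j), if red (pr f) (pr h) = q then ww α f h else 0

theorem norm_gq_le (α : ℕ → ℂ) (X m : ℕ) (q : ℕ × ℕ) :
    ‖gq α X m q‖ ≤ ∑ j ∈ Finset.range (m + 1), ‖cc m j‖ * NN α X j (m - j) q := by
  unfold gq NN
  refine (norm_sum_le _ _).trans (Finset.sum_le_sum fun j _ => ?_)
  rw [norm_mul]
  refine mul_le_mul_of_nonneg_left ?_ (norm_nonneg _)
  refine (norm_sum_le _ _).trans (Finset.sum_le_sum fun f hf => ?_)
  refine (norm_sum_le _ _).trans (Finset.sum_le_sum fun h hh => ?_)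
  split_ifs
  · rw [norm_ww α hf hh]
  · rw [norm_zero]

theorem cpow_prime (p : ℕ) (hp : 0 < p) (t : ℝ) : (p : ℂ) ^ (-(1 / 2 + t * I)) =
    ((Real.sqrt p : ℝ) : ℂ)⁻¹ * cexp (-(I * t * ((Real.log p : ℝ) : ℂ))) := by
  have hp0 : (0 : ℝ) < p := by exact_mod_cast hp
  have hpc : (p : ℂ) ≠ 0 := by exact_mod_cast hp.ne'
  rw [Complex.cpow_def_of_ne_zero hpc]
  have hs : ((Real.sqrt p : ℝ) : ℂ)⁻¹ = cexp (-(1 / 2 * ((Real.log p : ℝ) : ℂ))) := by
    rw [← Complex.ofReal_inv]
    have h1 : (Real.sqrt p)⁻¹ = Real.exp (-(1 / 2 * Real.log p)) := by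
      rw [Real.sqrt_eq_rpow, Real.rpow_def_of_pos hp0, ← Real.exp_neg]
      congr 1
      ring
    rw [h1]
    push_cast
    rfl
  rw [hs, ← Complex.exp_add, ← Complex.natCast_log]
  congr 1
  ring

theorem sum_pow_TX {R : Type} [CommSemiring R] (X r : ℕ) (F : ℕ → R) :
    (∑ p ∈ PX X, F p) ^ r = ∑ f ∈ TX X r, ∏ i, F (f i) := by
  rw [← Finset.prod_univ_sum (fun _ : Fin r => PX X) (fun _ p => F p)]
  simp

theorem log_pr {X r : ℕ} {f : Fin r → ℕ} (hf : f ∈ TX X r) :
    Real.log (pr f) = ∑ i, Real.log (f i) := by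
  unfold pr
  push_cast
  rw [Real.log_prod]
  intro i _
  exact_mod_cast (mem_TX.1 hf i).1.pos.ne'

theorem Ap_pow (α : ℕ → ℂ) (X j : ℕ) (t : ℝ) : Ap X α t ^ j = ∑ f ∈ TX X j,
    (∏ i, α (f i) / ((Real.sqrt (f i) : ℝ) : ℂ)) *
      cexp (-(I * t * ((Real.log (pr f) : ℝ) : ℂ))) := by
  unfold Ap
  rw [sum_pow_TX X j (fun p => α p * (p : ℂ) ^ (-(1 / 2 + t * I)))]
  refine Finset.sum_congr rfl fun f hf => ?_
  have h1 : ∀ i, α (f i) * ((f i : ℕ) : ℂ) ^ (-(1 / 2 + t * I)) =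
      α (f i) / ((Real.sqrt (f i) : ℝ) : ℂ) *
        cexp (-(I * t * ((Real.log (f i) : ℝ) : ℂ))) := by
    intro i
    rw [cpow_prime _ (mem_TX.1 hf i).1.pos]
    ring
  rw [Finset.prod_congr rfl fun i _ => h1 i, Finset.prod_mul_distrib, ← Complex.exp_sum,
    log_pr hf]
  congr 2
  push_cast
  rw [Finset.mul_sum, Finset.sum_neg_distrib]

theorem map_pow_conj_Ap (α : ℕ → ℂ) (X j : ℕ) (t : ℝ) :
    (starRingEnd ℂ (Ap X α t)) ^ j = ∑ f ∈ TX X j,
    (starRingEnd ℂ) (∏ i, α (f i) / ((Real.sqrt (f i) : ℝ) : ℂ)) *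
      cexp (I * t * ((Real.log (pr f) : ℝ) : ℂ)) := by
  rw [← map_pow, Ap_pow, map_sum]
  refine Finset.sum_congr rfl fun f _ => ?_
  rw [map_mul, ← Complex.exp_conj]
  congr 2
  rw [map_neg, map_mul, map_mul, Complex.conj_I, Complex.conj_ofReal, Complex.conj_ofReal]
  ring

theorem log_red {a b : ℕ} (ha : 0 < a) (hb : 0 < b) :
    Real.log (red a b).1 - Real.log (red a b).2 = Real.log a - Real.log b := by
  have hg : 0 < Nat.gcd a b := Nat.gcd_pos_of_pos_left _ ha
  have e1 : Nat.gcd a b * (red a b).1 = a := Nat.mul_div_cancel' (Nat.gcd_dvd_left _ _)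
  have e2 : Nat.gcd a b * (red a b).2 = b := Nat.mul_div_cancel' (Nat.gcd_dvd_right _ _)
  have h1 : (red a b).1 ≠ 0 := by
    intro h; rw [h, mul_zero] at e1; omega
  have h2 : (red a b).2 ≠ 0 := by
    intro h; rw [h, mul_zero] at e2; omega
  have f1 : Real.log a = Real.log (Nat.gcd a b) + Real.log (red a b).1 := by
    conv_lhs => rw [← e1]
    push_cast
    exact Real.log_mul (by exact_mod_cast hg.ne') (by exact_mod_cast h1)
  have f2 : Real.log b = Real.log (Nat.gcd a b) + Real.log (red a b).2 := by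
    conv_lhs => rw [← e2]
    push_cast
    exact Real.log_mul (by exact_mod_cast hg.ne') (by exact_mod_cast h2)
  rw [f1, f2]
  ring

/-- the frequencies -/
def LL (N : ℕ) : Finset (ℕ × ℕ) :=
  (Finset.Icc 1 N ×ˢ Finset.Icc 1 N).filter fun q => Nat.Coprime q.1 q.2

theorem red_mem {a b N : ℕ} (ha : 0 < a) (hb : 0 < b) (haN : a ≤ N) (hbN : b ≤ N) :
    red a b ∈ LL N := by
  have hg : 0 < Nat.gcd a b := Nat.gcd_pos_of_pos_left _ ha
  unfold LL red
  rw [Finset.mem_filter, Finset.mem_product, Finset.mem_Icc, Finset.mem_Icc]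
  refine ⟨⟨⟨?_, (Nat.div_le_self _ _).trans haN⟩, ⟨?_, (Nat.div_le_self _ _).trans hbN⟩⟩,
    Nat.coprime_div_gcd_div_gcd hg⟩
  · exact Nat.div_pos (Nat.le_of_dvd ha (Nat.gcd_dvd_left _ _)) hg
  · exact Nat.div_pos (Nat.le_of_dvd hb (Nat.gcd_dvd_right _ _)) hg

theorem im_pow (z : ℂ) (m : ℕ) : ((z.im ^ m : ℝ) : ℂ) =
    ∑ j ∈ Finset.range (m + 1), cc m j * (z ^ j * (starRingEnd ℂ z) ^ (m - j)) := by
  push_cast
  rw [Complex.im_eq_sub_conj, div_pow, sub_eq_add_neg, add_pow, Finset.sum_div]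
  refine Finset.sum_congr rfl fun j _ => ?_
  unfold cc
  rw [neg_pow]
  ring

theorem rep (α : ℕ → ℂ) {X : ℕ} (hX : 0 < X) (m : ℕ) (t : ℝ) :
    (((Ap X α t).im ^ m : ℝ) : ℂ) =
      ∑ q ∈ LL (X ^ m), gq α X m q * cexp (-(I * t * ((Real.log q.1 - Real.log q.2 : ℝ) : ℂ))) := by
  rw [im_pow]
  have h1 : ∀ q : ℕ × ℕ, gq α X m q * cexp (-(I * t * ((Real.log q.1 - Real.log q.2 : ℝ) : ℂ))) =
      ∑ j ∈ Finset.range (m + 1), cc m j * ∑ f ∈ TX X j, ∑ h ∈ TX X (m - j),
        (if red (pr f) (pr h) = q then ww α f h else 0) *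
          cexp (-(I * t * ((Real.log q.1 - Real.log q.2 : ℝ) : ℂ))) := by
    intro q
    unfold gq
    rw [Finset.sum_mul]
    refine Finset.sum_congr rfl fun j _ => ?_
    rw [mul_assoc, Finset.sum_mul]
    congr 1
    refine Finset.sum_congr rfl fun f _ => ?_
    rw [Finset.sum_mul]
  rw [Finset.sum_congr rfl fun q _ => h1 q, Finset.sum_comm]
  refine Finset.sum_congr rfl fun j hj => ?_
  rw [← Finset.mul_sum]
  congr 1
  rw [Finset.sum_comm]
  rw [map_pow_conj_Ap α X (m - j) t, Ap_pow, Finset.sum_mul_sum]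
  refine Finset.sum_congr rfl fun f hf => ?_
  rw [Finset.sum_comm]
  refine Finset.sum_congr rfl fun h hh => ?_
  have hjm : j ≤ m := Nat.lt_succ_iff.1 (Finset.mem_range.1 hj)
  have hmem : red (pr f) (pr h) ∈ LL (X ^ m) := by
    refine red_mem (pr_pos hf) (pr_pos hh) ?_ ?_
    · exact (pr_le hf).trans (Nat.pow_le_pow_right hX hjm)
    · exact (pr_le hh).trans (Nat.pow_le_pow_right hX (Nat.sub_le _ _))
  rw [Finset.sum_eq_single_of_mem _ hmem]
  · rw [if_pos rfl, log_red (pr_pos hf) (pr_pos hh)]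
    unfold ww
    have h2 : cexp (-(I * t * ((Real.log (pr f) : ℝ) : ℂ))) *
        cexp (I * t * ((Real.log (pr h) : ℝ) : ℂ)) =
        cexp (-(I * t * ((Real.log (pr f) - Real.log (pr h) : ℝ) : ℂ))) := by
      rw [← Complex.exp_add]
      congr 1
      push_cast
      ring
    rw [← h2]
    ring
  · intro q _ hq
    rw [if_neg (fun h => hq h.symm), zero_mul]

theorem NN_sum_le (α : ℕ → ℂ) (X j l : ℕ) (Λ : Finset (ℕ × ℕ)) :
    ∑ q ∈ Λ, NN α X j l q ≤ (∑ p ∈ PX X, ‖α p‖ / Real.sqrt p) ^ j *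
      (∑ p ∈ PX X, ‖α p‖ / Real.sqrt p) ^ l := by
  unfold NN
  rw [Finset.sum_comm, sum_pow_TX, sum_pow_TX, Finset.sum_mul_sum]
  refine Finset.sum_le_sum fun f hf => ?_
  rw [Finset.sum_comm]
  refine Finset.sum_le_sum fun h hh => ?_
  rw [Finset.sum_ite_eq, ← WW_pr α hf, ← WW_pr α hh]
  split_ifs
  · exact le_rfl
  · exact mul_nonneg (WW_nonneg _ _) (WW_nonneg _ _)

theorem mass {α : ℕ → ℂ} (hα : ∀ p, ‖α p‖ ≤ 1) (X m : ℕ) (Λ : Finset (ℕ × ℕ)) :
    ∑ q ∈ Λ, ‖gq α X m q‖ ≤ (X : ℝ) ^ m := by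
  set S := ∑ p ∈ PX X, ‖α p‖ / Real.sqrt p with hS
  have hS0 : 0 ≤ S := Finset.sum_nonneg fun p _ => by positivity
  have hSX : S ≤ X := by
    calc S ≤ ∑ _p ∈ PX X, (1 : ℝ) := by
          refine Finset.sum_le_sum fun p hp => ?_
          have hp1 : (1 : ℝ) ≤ p := by exact_mod_cast (mem_PX.1 hp).1.one_le
          have h1 : 1 ≤ Real.sqrt p := by
            rw [show (1 : ℝ) = Real.sqrt 1 by simp]
            exact Real.sqrt_le_sqrt hp1
          rw [div_le_one (by linarith)]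
          exact (hα p).trans h1
      _ = ((PX X).card : ℝ) := by simp
      _ ≤ ((Finset.Icc 1 X).card : ℝ) := by exact_mod_cast Finset.card_filter_le _ _
      _ = X := by simp
  calc ∑ q ∈ Λ, ‖gq α X m q‖ ≤
        ∑ q ∈ Λ, ∑ j ∈ Finset.range (m + 1), ‖cc m j‖ * NN α X j (m - j) q :=
          Finset.sum_le_sum fun q _ => norm_gq_le α X m q
    _ = ∑ j ∈ Finset.range (m + 1), ‖cc m j‖ * ∑ q ∈ Λ, NN α X j (m - j) q := by
          rw [Finset.sum_comm]
          exact Finset.sum_congr rfl fun j _ => (Finset.mul_sum _ _ _).symm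
    _ ≤ ∑ j ∈ Finset.range (m + 1), (m.choose j : ℝ) / 2 ^ m * S ^ m := by
          refine Finset.sum_le_sum fun j hj => ?_
          have hjm : j ≤ m := Nat.lt_succ_iff.1 (Finset.mem_range.1 hj)
          rw [norm_cc]
          refine mul_le_mul_of_nonneg_left ?_ (by positivity)
          refine (NN_sum_le α X j (m - j) Λ).trans (le_of_eq ?_)
          rw [← pow_add]
          congr 1
          omega
    _ = S ^ m := by
          rw [← Finset.sum_mul, ← Finset.sum_div]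
          have h2 : ∑ j ∈ Finset.range (m + 1), (m.choose j : ℝ) = 2 ^ m := by
            exact_mod_cast Nat.sum_range_choose m
          rw [h2]
          field_simp
    _ ≤ (X : ℝ) ^ m := pow_le_pow_left₀ hS0 hSX m

theorem norm_gq_le' (α : ℕ → ℂ) (X m : ℕ) (q : ℕ × ℕ) :
    ‖gq α X m q‖ ≤ m.factorial * ∑ x ∈ Finset.range (m + 1) ×ˢ Finset.range (m + 1),
      EE α X x.1 (m - x.1) x.2 q := by
  refine (norm_gq_le α X m q).trans ?_
  rw [Finset.sum_product, Finset.mul_sum]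
  refine Finset.sum_le_sum fun j hj => ?_
  have hjm : j ≤ m := Nat.lt_succ_iff.1 (Finset.mem_range.1 hj)
  have h0 : 0 ≤ NN α X j (m - j) q := by
    unfold NN
    refine Finset.sum_nonneg fun f _ => Finset.sum_nonneg fun h _ => ?_
    split_ifs
    · exact mul_nonneg (WW_nonneg _ _) (WW_nonneg _ _)
    · exact le_rfl
  calc ‖cc m j‖ * NN α X j (m - j) q ≤ 1 * NN α X j (m - j) q :=
        mul_le_mul_of_nonneg_right (norm_cc_le m j) h0
    _ = NN α X j (m - j) q := one_mul _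
    _ ≤ j.factorial * (m - j).factorial * ∑ i ∈ Finset.range (j + 1), EE α X j (m - j) i q :=
        NN_le α X j (m - j) q
    _ ≤ m.factorial * ∑ i ∈ Finset.range (m + 1), EE α X j (m - j) i q := by
        refine mul_le_mul ?_ ?_ (Finset.sum_nonneg fun i _ => EE_nonneg _ _ _ _ _ _)
          (by positivity)
        · exact_mod_cast Nat.le_of_dvd (Nat.factorial_pos m)
            (Nat.factorial_mul_factorial_dvd_factorial hjm)
        · refine Finset.sum_le_sum_of_subset_of_nonneg ?_ fun i _ _ => EE_nonneg _ _ _ _ _ _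
          intro i hi
          rw [Finset.mem_range] at hi ⊢
          omega

/-- Package SP. -/
theorem t_SP : S_SPB → S_SP := by
  intro hspb k
  choose C hC0 hC using hspb
  set m := 2 * k + 1 with hm
  set K : ℝ := (m.factorial : ℝ) ^ 2 * ((m + 1) * (m + 1)) *
    ((m + 1) * (m + 1) * ∑ n ∈ Finset.range m, C n) with hK
  have hsum0 : 0 ≤ ∑ n ∈ Finset.range m, C n := Finset.sum_nonneg fun n _ => (hC0 n).le
  have hK0 : 0 ≤ K := by positivity
  refine ⟨K + 1, by linarith, ?_⟩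
  intro X α hα
  rcases Nat.eq_zero_or_pos X with hX | hX
  · subst hX
    refine ⟨∅, fun _ => 0, by simp, ?_, by simp, ?_⟩
    · intro t
      simp [Ap]
    · intro u
      have := Vq_nonneg 0 α
      rw [Finset.sum_empty]
      positivity
  · refine ⟨LL (X ^ m), gq α X m, ?_, fun t => rep α hX m t, mass hα X m _, ?_⟩
    · intro q hq
      unfold LL at hq
      rw [Finset.mem_filter, Finset.mem_product, Finset.mem_Icc, Finset.mem_Icc] at hq
      exact ⟨hq.1.1.1, hq.1.1.2, hq.1.2.1, hq.1.2.2, hq.2⟩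
    · intro u
      have hV := Vq_nonneg X α
      set P := Finset.range (m + 1) ×ˢ Finset.range (m + 1) with hP
      have hPc : (P.card : ℝ) = (m + 1) * (m + 1) := by
        rw [hP, Finset.card_product, Finset.card_range]
        push_cast
        ring
      have h1 : ∀ q : ℕ × ℕ, ‖gq α X m q‖ ^ 2 ≤ (m.factorial : ℝ) ^ 2 * ((m + 1) * (m + 1)) *
          ∑ x ∈ P, EE α X x.1 (m - x.1) x.2 q ^ 2 := by
        intro q
        have h2 := norm_gq_le' α X m q
        have h3 : ‖gq α X m q‖ ^ 2 ≤ (m.factorial * ∑ x ∈ P, EE α X x.1 (m - x.1) x.2 q) ^ 2 :=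
          pow_le_pow_left₀ (norm_nonneg _) h2 2
        refine h3.trans ?_
        rw [mul_pow, mul_assoc]
        refine mul_le_mul_of_nonneg_left ?_ (by positivity)
        have h4 := sq_sum_le_card_mul_sum_sq (s := P)
          (f := fun x => EE α X x.1 (m - x.1) x.2 q)
        rw [hPc] at h4
        exact h4
      have h5 : ∑ q ∈ LL (X ^ m), (if |(Real.log q.1 - Real.log q.2) - u| ≤ 1 then
          ‖gq α X m q‖ ^ 2 else 0) ≤ (m.factorial : ℝ) ^ 2 * ((m + 1) * (m + 1)) *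
          ∑ x ∈ P, ∑ q ∈ LL (X ^ m), (if |(Real.log q.1 - Real.log q.2) - u| ≤ 1 then
            EE α X x.1 (m - x.1) x.2 q ^ 2 else 0) := by
        rw [Finset.sum_comm, Finset.mul_sum]
        refine Finset.sum_le_sum fun q _ => ?_
        split_ifs
        · exact h1 q
        · simp
      refine h5.trans ?_
      have h6 : ∀ x ∈ P, ∑ q ∈ LL (X ^ m), (if |(Real.log q.1 - Real.log q.2) - u| ≤ 1 then
            EE α X x.1 (m - x.1) x.2 q ^ 2 else 0) ≤
            (∑ n ∈ Finset.range m, C n) * Vq X α ^ (2 * k) / (1 + |u|) := by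
        intro x hx
        rw [hP, Finset.mem_product, Finset.mem_range, Finset.mem_range] at hx
        by_cases hik : x.2 ≤ k
        · have h7 := EE_density (n := 2 * (k - x.2)) (hC (2 * (k - x.2))) (hC0 _).le hα X x.1
            (m - x.1) x.2 (by omega) (LL (X ^ m)) u
          refine h7.trans ?_
          have e1 : 2 * (k - x.2) + 2 * x.2 = 2 * k := by omega
          rw [e1]
          refine div_le_div_of_nonneg_right (mul_le_mul_of_nonneg_right ?_ (pow_nonneg hV _))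
            (by positivity)
          exact Finset.single_le_sum (f := C) (fun n _ => (hC0 n).le)
            (Finset.mem_range.2 (by omega))
        · rw [Finset.sum_eq_zero]
          · positivity
          · intro q _
            unfold EE
            rw [if_neg (show ¬ (x.2 ≤ x.1 ∧ x.2 ≤ m - x.1 ∧ q.1 ∈ DX X (x.1 - x.2) ∧
              q.2 ∈ DX X (m - x.1 - x.2)) from fun h => by omega)]
            simp
      refine (mul_le_mul_of_nonneg_left (Finset.sum_le_sum h6) (by positivity)).trans ?_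
      rw [Finset.sum_const, nsmul_eq_mul, hPc]
      have h8 : (m.factorial : ℝ) ^ 2 * ((m + 1) * (m + 1)) * (((m : ℝ) + 1) * (m + 1) *
          ((∑ n ∈ Finset.range m, C n) * Vq X α ^ (2 * k) / (1 + |u|))) =
          K * Vq X α ^ (2 * k) / (1 + |u|) := by
        rw [hK]
        ring
      rw [h8]
      refine div_le_div_of_nonneg_right (mul_le_mul_of_nonneg_right ?_ (pow_nonneg hV _))
        (by positivity)
      linarith

/-- Package SP without hypothesis. -/
theorem t_SP' : S_SP := t_SP t_SPB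

end

end Pool.Agent.U668.MV3
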