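import Pool.Agent.U668.MV3.SPB

/-!
# Package SP of project MV3, part 1: products of primes
-/

set_option autoImplicit false

namespace Pool.Agent.U668.MV3

open Finset

noncomputable section

/-- tuples of primes up to `X` -/
abbrev TX (X r : ℕ) : Finset (Fin r → ℕ) := Fintype.piFinset (fun _ : Fin r => PX X)

/-- the product of a tuple -/
def pr {r : ℕ} (f : Fin r → ℕ) : ℕ := ∏ i, f i

theorem mem_PX {X p : ℕ} : p ∈ PX X ↔ p.Prime ∧ p ≤ X := by
  simp only [PX, Finset.mem_filter, Finset.mem_Icc]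
  exact ⟨fun h => ⟨h.2, h.1.2⟩, fun h => ⟨⟨h.1.one_le, h.2⟩, h.1⟩⟩

theorem mem_TX {X r : ℕ} {f : Fin r → ℕ} : f ∈ TX X r ↔ ∀ i, (f i).Prime ∧ f i ≤ X := by
  rw [Fintype.mem_piFinset]
  exact forall_congr' fun i => mem_PX

theorem pr_pos {X r : ℕ} {f : Fin r → ℕ} (hf : f ∈ TX X r) : 0 < pr f :=
  Finset.prod_pos fun i _ => (mem_TX.1 hf i).1.pos

theorem pr_le {X r : ℕ} {f : Fin r → ℕ} (hf : f ∈ TX X r) : pr f ≤ X ^ r := by
  calc pr f ≤ ∏ _i : Fin r, X := Finset.prod_le_prod' fun i _ => (mem_TX.1 hf i).2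
    _ = X ^ r := by simp

/-- the completely multiplicative function `|α|` -/
def BB (α : ℕ → ℂ) (n : ℕ) : ℝ := (n.primeFactorsList.map (fun p => ‖α p‖)).prod

theorem BB_nonneg (α : ℕ → ℂ) (n : ℕ) : 0 ≤ BB α n := by
  refine List.prod_nonneg fun x hx => ?_
  obtain ⟨p, _, rfl⟩ := List.mem_map.1 hx
  exact norm_nonneg _

theorem BB_mul (α : ℕ → ℂ) {a b : ℕ} (ha : a ≠ 0) (hb : b ≠ 0) :
    BB α (a * b) = BB α a * BB α b := by
  unfold BB
  rw [((Nat.perm_primeFactorsList_mul ha hb).map _).prod_eq, List.map_append, List.prod_append]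

theorem BB_one (α : ℕ → ℂ) : BB α 1 = 1 := by simp [BB]

theorem BB_prime (α : ℕ → ℂ) {p : ℕ} (hp : p.Prime) : BB α p = ‖α p‖ := by
  simp [BB, Nat.primeFactorsList_prime hp]

/-- the weights -/
def WW (α : ℕ → ℂ) (n : ℕ) : ℝ := BB α n / Real.sqrt n

theorem WW_nonneg (α : ℕ → ℂ) (n : ℕ) : 0 ≤ WW α n :=
  div_nonneg (BB_nonneg α n) (Real.sqrt_nonneg _)

theorem WW_mul (α : ℕ → ℂ) {a b : ℕ} (ha : a ≠ 0) (hb : b ≠ 0) :
    WW α (a * b) = WW α a * WW α b := by
  unfold WW
  rw [BB_mul α ha hb, Nat.cast_mul, Real.sqrt_mul (Nat.cast_nonneg a), mul_div_mul_comm]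

theorem WW_one (α : ℕ → ℂ) : WW α 1 = 1 := by simp [WW, BB_one]

theorem WW_pr (α : ℕ → ℂ) {X r : ℕ} {f : Fin r → ℕ} (hf : f ∈ TX X r) :
    WW α (pr f) = ∏ i, ‖α (f i)‖ / Real.sqrt (f i) := by
  have key : ∀ s : Finset (Fin r), WW α (∏ i ∈ s, f i) = ∏ i ∈ s, ‖α (f i)‖ / Real.sqrt (f i) := by
    intro s
    classical
    induction s using Finset.induction_on with
    | empty => simp [WW_one]
    | insert i s hi ih =>
      rw [Finset.prod_insert hi, Finset.prod_insert hi, WW_mul α, ih]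
      · congr 1
        unfold WW
        rw [BB_prime α (mem_TX.1 hf i).1]
      · exact (mem_TX.1 hf i).1.pos.ne'
      · exact (Finset.prod_pos fun i _ => (mem_TX.1 hf i).1.pos).ne'
  exact key _

theorem WW_pr_sq (α : ℕ → ℂ) {X r : ℕ} {f : Fin r → ℕ} (hf : f ∈ TX X r) :
    WW α (pr f) ^ 2 = ∏ i, ‖α (f i)‖ ^ 2 / (f i : ℝ) := by
  rw [WW_pr α hf, ← Finset.prod_pow]
  refine Finset.prod_congr rfl fun i _ => ?_
  rw [div_pow, Real.sq_sqrt (Nat.cast_nonneg _)]

/-- products of `r` primes up to `X` -/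
def DX (X r : ℕ) : Finset ℕ := (TX X r).image pr

theorem mem_DX {X r n : ℕ} : n ∈ DX X r ↔
    n ≠ 0 ∧ (∀ p : ℕ, p.Prime → p ∣ n → p ≤ X) ∧ n.primeFactorsList.length = r := by
  unfold DX
  rw [Finset.mem_image]
  constructor
  · rintro ⟨f, hf, rfl⟩
    refine ⟨(pr_pos hf).ne', ?_, ?_⟩
    · intro p hp hd
      obtain ⟨i, _, hi⟩ := (Nat.prime_iff.1 hp).exists_mem_finset_dvd hd
      rw [(Nat.prime_dvd_prime_iff_eq hp (mem_TX.1 hf i).1).1 hi]
      exact (mem_TX.1 hf i).2
    · have h1 : List.Perm (List.ofFn f) (pr f).primeFactorsList := by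
        refine Nat.primeFactorsList_unique ?_ ?_
        · rw [List.prod_ofFn]; rfl
        · intro p hp
          rw [List.mem_ofFn] at hp
          obtain ⟨i, rfl⟩ := hp
          exact (mem_TX.1 hf i).1
      rw [← h1.length_eq, List.length_ofFn]
  · rintro ⟨h0, hX, hl⟩
    subst hl
    refine ⟨fun i => n.primeFactorsList.get i, ?_, ?_⟩
    · rw [mem_TX]
      intro i
      have h2 : n.primeFactorsList.get i ∈ n.primeFactorsList := List.get_mem _ _
      exact ⟨Nat.prime_of_mem_primeFactorsList h2,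
        hX _ (Nat.prime_of_mem_primeFactorsList h2) (Nat.dvd_of_mem_primeFactorsList h2)⟩
    · unfold pr
      rw [← List.prod_ofFn, List.ofFn_get]
      exact Nat.prod_primeFactorsList h0

theorem length_mul {a b : ℕ} (ha : a ≠ 0) (hb : b ≠ 0) :
    (a * b).primeFactorsList.length = a.primeFactorsList.length + b.primeFactorsList.length := by
  rw [(Nat.perm_primeFactorsList_mul ha hb).length_eq, List.length_append]

/-- divisors -/
theorem DX_split {X j a b : ℕ} (h : a * b ∈ DX X j) :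
    a.primeFactorsList.length ≤ j ∧ a ∈ DX X a.primeFactorsList.length ∧
      b ∈ DX X (j - a.primeFactorsList.length) := by
  rw [mem_DX] at h
  obtain ⟨h0, h1, h2⟩ := h
  have ha : a ≠ 0 := left_ne_zero_of_mul h0
  have hb : b ≠ 0 := right_ne_zero_of_mul h0
  rw [length_mul ha hb] at h2
  refine ⟨by omega, ?_, ?_⟩
  · rw [mem_DX]
    exact ⟨ha, fun p hp hd => h1 p hp (hd.mul_right b), rfl⟩
  · rw [mem_DX]
    exact ⟨hb, fun p hp hd => h1 p hp (hd.mul_left a), by omega⟩

/-- the number of tuples with a given product -/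
theorem card_fiber (X r n : ℕ) : ((TX X r).filter (fun f => pr f = n)).card ≤ r.factorial := by
  classical
  by_cases hne : ((TX X r).filter (fun f => pr f = n)).Nonempty
  · obtain ⟨f₀, hf₀⟩ := hne
    have hperm : ∀ f ∈ (TX X r).filter (fun f => pr f = n),
        List.Perm (List.ofFn f) n.primeFactorsList := by
      intro f hf
      rw [Finset.mem_filter] at hf
      refine Nat.primeFactorsList_unique ?_ ?_
      · rw [List.prod_ofFn]; exact hf.2
      · intro p hp
        rw [List.mem_ofFn] at hp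
        obtain ⟨i, rfl⟩ := hp
        exact (mem_TX.1 hf.1 i).1
    have hlen : n.primeFactorsList.length = r := by
      rw [← (hperm f₀ hf₀).length_eq, List.length_ofFn]
    calc ((TX X r).filter (fun f => pr f = n)).card ≤
        (n.primeFactorsList.permutations.toFinset).card := by
          refine Finset.card_le_card_of_injOn (fun f => List.ofFn f) ?_ ?_
          · intro f hf
            have := hperm f hf
            simpa [List.mem_permutations] using this
          · intro f _ g _ hfg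
            exact List.ofFn_injective hfg
      _ ≤ n.primeFactorsList.permutations.length := List.toFinset_card_le _
      _ = r.factorial := by rw [List.length_permutations, hlen]
  · rw [Finset.not_nonempty_iff_eq_empty.1 hne]
    simp

theorem sum_TX_pow (X r : ℕ) (F : ℕ → ℝ) :
    ∑ f ∈ TX X r, ∏ i, F (f i) = (∑ p ∈ PX X, F p) ^ r := by
  rw [← Finset.prod_univ_sum (fun _ : Fin r => PX X) (fun _ p => F p)]
  simp

/-- the sum over the products -/
theorem sum_DX_le (α : ℕ → ℂ) (X r : ℕ) :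
    ∑ n ∈ DX X r, WW α n ^ 2 ≤ (Pool.Agent.U398.MV.Vq X α) ^ r := by
  unfold DX
  refine (Finset.sum_image_le_of_nonneg (fun _ _ => sq_nonneg _)).trans ?_
  rw [Finset.sum_congr rfl fun f hf => WW_pr_sq α hf]
  rw [sum_TX_pow X r (fun p => ‖α p‖ ^ 2 / (p : ℝ))]
  rfl

end

end Pool.Agent.U668.MV3
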