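import Pool.Agent.U668.MV3.SP1

/-!
# Package SP of project MV3, part 2: the coefficients of `A^j Ā^l`
-/

set_option autoImplicit false

namespace Pool.Agent.U668.MV3

open Finset Pool.Agent.U398.MV

noncomputable section

/-- the reduced fraction -/
def red (a b : ℕ) : ℕ × ℕ := (a / Nat.gcd a b, b / Nat.gcd a b)

/-- the majorant of the coefficients of `A^j Ā^l` -/
def NN (α : ℕ → ℂ) (X j l : ℕ) (q : ℕ × ℕ) : ℝ :=
  ∑ f ∈ TX X j, ∑ h ∈ TX X l, if red (pr f) (pr h) = q then WW α (pr f) * WW α (pr h) else 0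

/-- the basic pieces -/
def EE (α : ℕ → ℂ) (X j l i : ℕ) (q : ℕ × ℕ) : ℝ :=
  if i ≤ j ∧ i ≤ l ∧ q.1 ∈ DX X (j - i) ∧ q.2 ∈ DX X (l - i) then
    Vq X α ^ i * (WW α q.1 * WW α q.2) else 0

theorem Vq_nonneg (X : ℕ) (α : ℕ → ℂ) : 0 ≤ Vq X α :=
  Finset.sum_nonneg fun p _ => by positivity

theorem EE_nonneg (α : ℕ → ℂ) (X j l i : ℕ) (q : ℕ × ℕ) : 0 ≤ EE α X j l i q := by
  unfold EE
  split_ifs
  · exact mul_nonneg (pow_nonneg (Vq_nonneg X α) i) (mul_nonneg (WW_nonneg _ _) (WW_nonneg _ _))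
  · exact le_rfl

theorem NN_le (α : ℕ → ℂ) (X j l : ℕ) (q : ℕ × ℕ) :
    NN α X j l q ≤ j.factorial * l.factorial * ∑ i ∈ Finset.range (j + 1), EE α X j l i q := by
  classical
  -- group by the products
  have h1 : NN α X j l q = ∑ a ∈ DX X j, ∑ b ∈ DX X l,
      ∑ f ∈ (TX X j).filter (fun f => pr f = a), ∑ h ∈ (TX X l).filter (fun h => pr h = b),
        (if red a b = q then WW α a * WW α b else 0) := by
    unfold NN
    rw [← Finset.sum_fiberwise_of_maps_to (s := TX X j) (t := DX X j) (g := pr)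
      (fun f hf => Finset.mem_image_of_mem _ hf)]
    refine Finset.sum_congr rfl fun a _ => Eq.symm ?_
    rw [Finset.sum_comm]
    refine Finset.sum_congr rfl fun f hf => Eq.symm ?_
    rw [Finset.mem_filter] at hf
    rw [← Finset.sum_fiberwise_of_maps_to (s := TX X l) (t := DX X l) (g := pr)
      (fun f hf => Finset.mem_image_of_mem _ hf)]
    refine Finset.sum_congr rfl fun b _ => ?_
    refine Finset.sum_congr rfl fun h hh => ?_
    rw [Finset.mem_filter] at hh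
    rw [hf.2, hh.2]
  have h2 : NN α X j l q ≤ j.factorial * l.factorial *
      ∑ x ∈ (DX X j ×ˢ DX X l).filter (fun x => red x.1 x.2 = q), WW α x.1 * WW α x.2 := by
    rw [h1, Finset.sum_filter, Finset.sum_product, Finset.mul_sum]
    refine Finset.sum_le_sum fun a _ => ?_
    rw [Finset.mul_sum]
    refine Finset.sum_le_sum fun b _ => ?_
    rw [Finset.sum_const, Finset.sum_const, nsmul_eq_mul, nsmul_eq_mul, ← mul_assoc]
    have c1 : (((TX X j).filter (fun f => pr f = a)).card : ℝ) ≤ j.factorial := by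
      exact_mod_cast card_fiber X j a
    have c2 : (((TX X l).filter (fun f => pr f = b)).card : ℝ) ≤ l.factorial := by
      exact_mod_cast card_fiber X l b
    refine mul_le_mul_of_nonneg_right (mul_le_mul c1 c2 (by positivity) (by positivity)) ?_
    split_ifs
    · exact mul_nonneg (WW_nonneg _ _) (WW_nonneg _ _)
    · exact le_rfl
  refine h2.trans (mul_le_mul_of_nonneg_left ?_ (by positivity))
  set s := (DX X j ×ˢ DX X l).filter (fun x => red x.1 x.2 = q) with hs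
  -- the structure of `s`
  have hstr : ∀ x ∈ s, Nat.gcd x.1 x.2 ≠ 0 ∧ q.1 ≠ 0 ∧ q.2 ≠ 0 ∧
      x.1 = Nat.gcd x.1 x.2 * q.1 ∧ x.2 = Nat.gcd x.1 x.2 * q.2 := by
    intro x hx
    rw [hs, Finset.mem_filter, Finset.mem_product, mem_DX, mem_DX] at hx
    obtain ⟨⟨⟨ha, -, -⟩, ⟨hb, -, -⟩⟩, hq⟩ := hx
    have hg : Nat.gcd x.1 x.2 ≠ 0 := Nat.gcd_ne_zero_left ha
    have e1 : x.1 = Nat.gcd x.1 x.2 * q.1 := by
      rw [← hq]
      exact (Nat.mul_div_cancel' (Nat.gcd_dvd_left _ _)).symm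
    have e2 : x.2 = Nat.gcd x.1 x.2 * q.2 := by
      rw [← hq]
      exact (Nat.mul_div_cancel' (Nat.gcd_dvd_right _ _)).symm
    refine ⟨hg, ?_, ?_, e1, e2⟩
    · intro h0; rw [h0, mul_zero] at e1; exact ha e1
    · intro h0; rw [h0, mul_zero] at e2; exact hb e2
  have hinj : Set.InjOn (fun x : ℕ × ℕ => Nat.gcd x.1 x.2) s := by
    intro x hx y hy hxy
    obtain ⟨_, _, _, e1, e2⟩ := hstr x hx
    obtain ⟨_, _, _, e3, e4⟩ := hstr y hy
    have hxy' : Nat.gcd x.1 x.2 = Nat.gcd y.1 y.2 := hxy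
    refine Prod.ext ?_ ?_
    · rw [e1, e3, hxy']
    · rw [e2, e4, hxy']
  have h3 : ∑ x ∈ s, WW α x.1 * WW α x.2 =
      ∑ d ∈ s.image (fun x : ℕ × ℕ => Nat.gcd x.1 x.2), WW α d ^ 2 * (WW α q.1 * WW α q.2) := by
    rw [Finset.sum_image hinj]
    refine Finset.sum_congr rfl fun x hx => ?_
    obtain ⟨hg, hq1, hq2, e1, e2⟩ := hstr x hx
    have e5 : WW α x.1 = WW α (Nat.gcd x.1 x.2) * WW α q.1 := by
      conv_lhs => rw [e1]
      exact WW_mul α hg hq1
    have e6 : WW α x.2 = WW α (Nat.gcd x.1 x.2) * WW α q.2 := by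
      conv_lhs => rw [e2]
      exact WW_mul α hg hq2
    rw [e5, e6]
    ring
  rw [h3]
  -- the sum over the gcd by its number of prime factors
  have hcond : ∀ d ∈ s.image (fun x : ℕ × ℕ => Nat.gcd x.1 x.2),
      d.primeFactorsList.length ≤ j ∧ d.primeFactorsList.length ≤ l ∧
      q.1 ∈ DX X (j - d.primeFactorsList.length) ∧ q.2 ∈ DX X (l - d.primeFactorsList.length) ∧
      d ∈ DX X d.primeFactorsList.length := by
    intro d hd
    obtain ⟨x, hx, rfl⟩ := Finset.mem_image.1 hd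
    obtain ⟨hg, hq1, hq2, e1, e2⟩ := hstr x hx
    rw [hs, Finset.mem_filter, Finset.mem_product] at hx
    obtain ⟨⟨hx1, hx2⟩, -⟩ := hx
    rw [e1] at hx1
    rw [e2] at hx2
    obtain ⟨a1, a2, a3⟩ := DX_split hx1
    obtain ⟨b1, b2, b3⟩ := DX_split hx2
    exact ⟨a1, b1, a3, b3, a2⟩
  rw [← Finset.sum_fiberwise_of_maps_to (t := Finset.range (j + 1))
    (g := fun d : ℕ => d.primeFactorsList.length)
    (fun d hd => Finset.mem_range.2 (Nat.lt_succ_of_le (hcond d hd).1))]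
  refine Finset.sum_le_sum fun i _ => ?_
  by_cases hne : ((s.image (fun x : ℕ × ℕ => Nat.gcd x.1 x.2)).filter
      (fun d => d.primeFactorsList.length = i)).Nonempty
  · obtain ⟨d, hd⟩ := hne
    rw [Finset.mem_filter] at hd
    obtain ⟨hd1, hd2⟩ := hd
    obtain ⟨c1, c2, c3, c4, _⟩ := hcond d hd1
    rw [hd2] at c1 c2 c3 c4
    unfold EE
    rw [if_pos ⟨c1, c2, c3, c4⟩, ← Finset.sum_mul]
    refine mul_le_mul_of_nonneg_right ?_ (mul_nonneg (WW_nonneg _ _) (WW_nonneg _ _))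
    refine le_trans ?_ (sum_DX_le α X i)
    refine Finset.sum_le_sum_of_subset_of_nonneg ?_ fun _ _ _ => sq_nonneg _
    intro e he
    rw [Finset.mem_filter] at he
    have := (hcond e he.1).2.2.2.2
    rwa [he.2] at this
  · rw [Finset.not_nonempty_iff_eq_empty.1 hne, Finset.sum_empty]
    exact EE_nonneg _ _ _ _ _ _

/-- `S_SPB` for two groups of coordinates. -/
theorem spb_two {n : ℕ} {C : ℝ}
    (hC : ∀ (X : ℕ) (w : ℕ → ℝ), (∀ p, 0 ≤ w p ∧ w p ≤ 1) →
      ∀ ε : Fin (n + 1) → ℝ, (∀ i, ε i = 1 ∨ ε i = -1) → ∀ u : ℝ,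
      ∑ f ∈ Fintype.piFinset (fun _ : Fin (n + 1) => (Finset.Icc 1 X).filter Nat.Prime),
        (if |(∑ i, ε i * Real.log (f i)) - u| ≤ 1 then ∏ i, w (f i) / (f i : ℝ) else 0) ≤
        C * (∑ p ∈ (Finset.Icc 1 X).filter Nat.Prime, w p / p) ^ n / (1 + |u|))
    {r s : ℕ} (hrs : r + s = n + 1) (X : ℕ) (w : ℕ → ℝ) (hw : ∀ p, 0 ≤ w p ∧ w p ≤ 1) (u : ℝ) :
    ∑ f ∈ TX X r, ∑ h ∈ TX X s,
      (if |(Real.log (pr f) - Real.log (pr h)) - u| ≤ 1 then
        (∏ i, w (f i) / (f i : ℝ)) * ∏ i, w (h i) / (h i : ℝ) else 0) ≤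
      C * (∑ p ∈ PX X, w p / p) ^ n / (1 + |u|) := by
  classical
  set e : Fin r ⊕ Fin s ≃ Fin (n + 1) := finSumFinEquiv.trans (finCongr hrs) with he
  set ε : Fin (n + 1) → ℝ := fun i => Sum.elim (fun _ => (1 : ℝ)) (fun _ => -1) (e.symm i) with hε
  refine le_trans (le_of_eq ?_) (hC X w hw ε (fun i => by
    simp only [hε]
    rcases e.symm i with a | a
    · left; rfl
    · right; rfl) u)
  rw [← Finset.sum_product']
  refine Finset.sum_nbij' (fun q => fun i => Sum.elim q.1 q.2 (e.symm i))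
    (fun f => (fun i => f (e (Sum.inl i)), fun i => f (e (Sum.inr i)))) ?_ ?_ ?_ ?_ ?_
  · intro q hq
    rw [Finset.mem_product, Fintype.mem_piFinset, Fintype.mem_piFinset] at hq
    rw [Fintype.mem_piFinset]
    intro i
    rcases e.symm i with a | a
    · exact hq.1 a
    · exact hq.2 a
  · intro f hf
    rw [Fintype.mem_piFinset] at hf
    rw [Finset.mem_product, Fintype.mem_piFinset, Fintype.mem_piFinset]
    exact ⟨fun i => hf _, fun i => hf _⟩
  · intro q _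
    refine Prod.ext ?_ ?_
    · funext i; simp
    · funext i; simp
  · intro f _
    funext i
    rcases h : e.symm i with a | a
    · simp only [h, Sum.elim_inl]
      rw [← h, Equiv.apply_symm_apply]
    · simp only [h, Sum.elim_inr]
      rw [← h, Equiv.apply_symm_apply]
  · intro q hq
    rw [Finset.mem_product] at hq
    have l1 : Real.log (pr q.1) = ∑ i, Real.log (q.1 i) := by
      unfold pr
      push_cast
      rw [Real.log_prod]
      intro i _
      exact_mod_cast (mem_TX.1 hq.1 i).1.pos.ne'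
    have l2 : Real.log (pr q.2) = ∑ i, Real.log (q.2 i) := by
      unfold pr
      push_cast
      rw [Real.log_prod]
      intro i _
      exact_mod_cast (mem_TX.1 hq.2 i).1.pos.ne'
    have s1 : ∑ i, ε i * Real.log ((Sum.elim q.1 q.2 (e.symm i) : ℕ) : ℝ) =
        Real.log (pr q.1) - Real.log (pr q.2) := by
      rw [← Equiv.sum_comp e]
      simp only [hε, Equiv.symm_apply_apply]
      rw [Fintype.sum_sum_type]
      simp only [Sum.elim_inl, Sum.elim_inr, one_mul, neg_mul, Finset.sum_neg_distrib]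
      rw [l1, l2]
      ring
    have s2 : ∏ i, w (Sum.elim q.1 q.2 (e.symm i)) / ((Sum.elim q.1 q.2 (e.symm i) : ℕ) : ℝ) =
        (∏ i, w (q.1 i) / (q.1 i : ℝ)) * ∏ i, w (q.2 i) / (q.2 i : ℝ) := by
      rw [← Equiv.prod_comp e]
      simp only [Equiv.symm_apply_apply]
      rw [Fintype.prod_sum_type]
      simp only [Sum.elim_inl, Sum.elim_inr]
    rw [s1, s2]

/-- the density of a piece -/
theorem EE_density {n : ℕ} {C : ℝ}
    (hC : ∀ (X : ℕ) (w : ℕ → ℝ), (∀ p, 0 ≤ w p ∧ w p ≤ 1) →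
      ∀ ε : Fin (n + 1) → ℝ, (∀ i, ε i = 1 ∨ ε i = -1) → ∀ u : ℝ,
      ∑ f ∈ Fintype.piFinset (fun _ : Fin (n + 1) => (Finset.Icc 1 X).filter Nat.Prime),
        (if |(∑ i, ε i * Real.log (f i)) - u| ≤ 1 then ∏ i, w (f i) / (f i : ℝ) else 0) ≤
        C * (∑ p ∈ (Finset.Icc 1 X).filter Nat.Prime, w p / p) ^ n / (1 + |u|))
    (hC0 : 0 ≤ C) {α : ℕ → ℂ} (hα : ∀ p, ‖α p‖ ≤ 1) (X j l i : ℕ)
    (hn : j + l = n + 1 + 2 * i) (Λ : Finset (ℕ × ℕ)) (u : ℝ) :
    ∑ q ∈ Λ, (if |(Real.log q.1 - Real.log q.2) - u| ≤ 1 then EE α X j l i q ^ 2 else 0) ≤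
      C * Vq X α ^ (n + 2 * i) / (1 + |u|) := by
  classical
  have hV := Vq_nonneg X α
  by_cases hi : i ≤ j ∧ i ≤ l
  · set r := j - i with hr
    set s := l - i with hs
    have hrs : r + s = n + 1 := by omega
    have h1 : ∑ q ∈ Λ, (if |(Real.log q.1 - Real.log q.2) - u| ≤ 1 then EE α X j l i q ^ 2
        else 0) ≤ ∑ q ∈ DX X r ×ˢ DX X s, (if |(Real.log q.1 - Real.log q.2) - u| ≤ 1 then
          (Vq X α ^ i * (WW α q.1 * WW α q.2)) ^ 2 else 0) := by
      have h2 : ∑ q ∈ Λ, (if |(Real.log q.1 - Real.log q.2) - u| ≤ 1 then EE α X j l i q ^ 2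
          else 0) = ∑ q ∈ Λ.filter (fun q => q.1 ∈ DX X r ∧ q.2 ∈ DX X s),
          (if |(Real.log q.1 - Real.log q.2) - u| ≤ 1 then
          (Vq X α ^ i * (WW α q.1 * WW α q.2)) ^ 2 else 0) := by
        rw [Finset.sum_filter]
        refine Finset.sum_congr rfl fun q _ => ?_
        unfold EE
        by_cases hq : q.1 ∈ DX X r ∧ q.2 ∈ DX X s
        · rw [if_pos hq, if_pos (show i ≤ j ∧ i ≤ l ∧ q.1 ∈ DX X (j - i) ∧ q.2 ∈ DX X (l - i) from
            ⟨hi.1, hi.2, hq.1, hq.2⟩)]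
        · rw [if_neg hq, if_neg (show ¬ (i ≤ j ∧ i ≤ l ∧ q.1 ∈ DX X (j - i) ∧
            q.2 ∈ DX X (l - i)) from fun h => hq ⟨h.2.2.1, h.2.2.2⟩)]
          simp
      rw [h2]
      refine Finset.sum_le_sum_of_subset_of_nonneg ?_ ?_
      · intro q hq
        rw [Finset.mem_filter] at hq
        exact Finset.mem_product.2 hq.2
      · intro q _ _
        split_ifs
        · exact sq_nonneg _
        · exact le_rfl
    refine h1.trans ?_
    rw [Finset.sum_product]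
    have h3 : ∀ a : ℕ, 0 ≤ ∑ y ∈ DX X s, (if |(Real.log a - Real.log y) - u| ≤ 1 then
          (Vq X α ^ i * (WW α a * WW α y)) ^ 2 else 0) := fun a =>
      Finset.sum_nonneg fun y _ => by
        split_ifs
        · exact sq_nonneg _
        · exact le_rfl
    have h4 : ∑ x ∈ DX X r, ∑ y ∈ DX X s, (if |(Real.log x - Real.log y) - u| ≤ 1 then
          (Vq X α ^ i * (WW α x * WW α y)) ^ 2 else 0) ≤
        ∑ f ∈ TX X r, ∑ h ∈ TX X s, (if |(Real.log (pr f) - Real.log (pr h)) - u| ≤ 1 then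
          (Vq X α ^ i * (WW α (pr f) * WW α (pr h))) ^ 2 else 0) := by
      unfold DX at h3 ⊢
      refine (Finset.sum_image_le_of_nonneg (s := TX X r) (g := pr) (f := fun x : ℕ =>
        ∑ y ∈ (TX X s).image pr, (if |(Real.log x - Real.log y) - u| ≤ 1 then
          (Vq X α ^ i * (WW α x * WW α y)) ^ 2 else 0)) (fun x _ => h3 x)).trans ?_
      refine Finset.sum_le_sum fun f _ => ?_
      refine Finset.sum_image_le_of_nonneg (s := TX X s) (g := pr) (f := fun y : ℕ =>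
        (if |(Real.log (pr f) - Real.log y) - u| ≤ 1 then
          (Vq X α ^ i * (WW α (pr f) * WW α y)) ^ 2 else 0)) (fun y _ => ?_)
      split_ifs
      · exact sq_nonneg _
      · exact le_rfl
    refine h4.trans ?_
    have h5 : ∑ f ∈ TX X r, ∑ h ∈ TX X s, (if |(Real.log (pr f) - Real.log (pr h)) - u| ≤ 1 then
          (Vq X α ^ i * (WW α (pr f) * WW α (pr h))) ^ 2 else 0) =
        Vq X α ^ (2 * i) * ∑ f ∈ TX X r, ∑ h ∈ TX X s,
          (if |(Real.log (pr f) - Real.log (pr h)) - u| ≤ 1 then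
          (∏ i, ‖α (f i)‖ ^ 2 / (f i : ℝ)) * ∏ i, ‖α (h i)‖ ^ 2 / (h i : ℝ) else 0) := by
      rw [Finset.mul_sum]
      refine Finset.sum_congr rfl fun f hf => ?_
      rw [Finset.mul_sum]
      refine Finset.sum_congr rfl fun h hh => ?_
      split_ifs
      · rw [← WW_pr_sq α hf, ← WW_pr_sq α hh]
        ring
      · simp
    rw [h5]
    have h6 := spb_two hC hrs X (fun p => ‖α p‖ ^ 2) (fun p => ⟨sq_nonneg _, by
      have := hα p
      have h0 := norm_nonneg (α p)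
      nlinarith⟩) u
    refine (mul_le_mul_of_nonneg_left h6 (pow_nonneg hV _)).trans (le_of_eq ?_)
    have h7 : ∑ p ∈ PX X, ‖α p‖ ^ 2 / (p : ℝ) = Vq X α := rfl
    rw [h7, pow_add]
    ring
  · rw [Finset.sum_eq_zero]
    · positivity
    · intro q _
      unfold EE
      rw [if_neg (show ¬ (i ≤ j ∧ i ≤ l ∧ q.1 ∈ DX X (j - i) ∧ q.2 ∈ DX X (l - i)) from
        fun h => hi ⟨h.1, h.2.1⟩)]
      simp

end

end Pool.Agent.U668.MV3
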