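import Pool.Agent.U398.MV.Stm3

/-!
# Package SPB of project MV3: prime tuples in a window
-/

set_option autoImplicit false

namespace Pool.Agent.U668.MV3

open Finset

noncomputable section

/-- the primes up to `X` -/
abbrev PX (X : ℕ) : Finset ℕ := (Finset.Icc 1 X).filter Nat.Prime

/-- the window constant -/
def C0 : ℝ := 6 * Real.exp 2 * Real.log 4

theorem C0_pos : 0 < C0 := by
  unfold C0
  have : 0 < Real.log 4 := Real.log_pos (by norm_num)
  positivity

theorem window (X : ℕ) (y : ℝ) :
    ∑ p ∈ PX X, (if |Real.log p - y| ≤ 1 then (1 : ℝ) / p else 0) ≤ C0 / (1 + |y|) := by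
  classical
  rw [← Finset.sum_filter]
  set P' := (PX X).filter (fun p : ℕ => |Real.log p - y| ≤ 1) with hP'
  have hden : 0 < 1 + |y| := by positivity
  rcases P'.eq_empty_or_nonempty with he | ⟨p₀, hp₀⟩
  · rw [he, Finset.sum_empty]
    exact div_nonneg C0_pos.le hden.le
  have hl2 : (0.69 : ℝ) < Real.log 2 := by
    have := Real.log_two_gt_d9; linarith
  have hmem : ∀ p ∈ P', p.Prime ∧ y - 1 ≤ Real.log p ∧ Real.log p ≤ y + 1 ∧
      Real.log 2 ≤ Real.log p := by
    intro p hp
    simp only [hP', PX, Finset.mem_filter, Finset.mem_Icc] at hp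
    obtain ⟨⟨_, hpp⟩, hab⟩ := hp
    rw [abs_le] at hab
    refine ⟨hpp, by linarith, by linarith, ?_⟩
    exact Real.log_le_log (by norm_num) (by exact_mod_cast hpp.two_le)
  have hy : -1 ≤ y := by
    obtain ⟨_, _, h2, h3⟩ := hmem p₀ hp₀
    linarith
  set M := max (Real.log 2) (y - 1) with hM
  have hM0 : 0 < M := lt_of_lt_of_le (by linarith) (le_max_left _ _)
  have hterm : ∀ p ∈ P', (1 : ℝ) / p ≤ Real.exp (1 - y) / M * Real.log p := by
    intro p hp
    obtain ⟨hpp, h1, h2, h3⟩ := hmem p hp
    have hp0 : (0 : ℝ) < p := by exact_mod_cast hpp.pos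
    have h4 : M ≤ Real.log p := max_le h3 h1
    have h5 : (1 : ℝ) / p ≤ Real.exp (1 - y) := by
      rw [one_div, ← Real.exp_log (inv_pos.2 hp0), Real.exp_le_exp, Real.log_inv]
      linarith
    have h6 : (1 : ℝ) ≤ Real.log p / M := (one_le_div hM0).2 h4
    calc (1 : ℝ) / p ≤ Real.exp (1 - y) * 1 := by linarith
      _ ≤ Real.exp (1 - y) * (Real.log p / M) :=
        mul_le_mul_of_nonneg_left h6 (Real.exp_pos _).le
      _ = Real.exp (1 - y) / M * Real.log p := by ring
  have htheta : ∑ p ∈ P', Real.log p ≤ Real.log 4 * Real.exp (y + 1) := by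
    refine le_trans ?_ (Chebyshev.theta_le_log4_mul_x (Real.exp_pos (y + 1)).le)
    unfold Chebyshev.theta
    refine Finset.sum_le_sum_of_subset_of_nonneg ?_ ?_
    · intro p hp
      obtain ⟨hpp, h1, h2, h3⟩ := hmem p hp
      simp only [Finset.mem_filter, Finset.mem_Ioc]
      refine ⟨⟨hpp.pos, ?_⟩, hpp⟩
      refine Nat.le_floor ?_
      have hp0 : (0 : ℝ) < p := by exact_mod_cast hpp.pos
      rw [← Real.exp_log hp0]
      exact Real.exp_le_exp.2 h2
    · intro p hp _
      simp only [Finset.mem_filter, Finset.mem_Ioc] at hp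
      exact Real.log_nonneg (by exact_mod_cast hp.2.one_le)
  have hsum : ∑ p ∈ P', (1 : ℝ) / p ≤ Real.exp 2 * Real.log 4 / M := by
    calc ∑ p ∈ P', (1 : ℝ) / p ≤ ∑ p ∈ P', Real.exp (1 - y) / M * Real.log p :=
          Finset.sum_le_sum hterm
      _ = Real.exp (1 - y) / M * ∑ p ∈ P', Real.log p := by rw [Finset.mul_sum]
      _ ≤ Real.exp (1 - y) / M * (Real.log 4 * Real.exp (y + 1)) :=
          mul_le_mul_of_nonneg_left htheta (by positivity)
      _ = Real.exp 2 * Real.log 4 / M := by
          have : Real.exp 2 = Real.exp (1 - y) * Real.exp (y + 1) := by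
            rw [← Real.exp_add]; congr 1; ring
          rw [this]; ring
  refine hsum.trans ?_
  rw [div_le_div_iff₀ hM0 hden]
  have h7 : 1 + |y| ≤ 6 * M := by
    rcases le_total y (7 / 5) with h | h
    · have h8 : |y| ≤ 7 / 5 := abs_le.2 ⟨by linarith, h⟩
      have h9 : Real.log 2 ≤ M := le_max_left _ _
      linarith
    · have h8 : |y| = y := abs_of_nonneg (by linarith)
      have h9 : y - 1 ≤ M := le_max_right _ _
      rw [h8]
      linarith
  have h10 : 0 < Real.exp 2 * Real.log 4 := by
    have : 0 < Real.log 4 := Real.log_pos (by norm_num)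
    positivity
  unfold C0
  nlinarith [mul_le_mul_of_nonneg_left h7 h10.le]

theorem inner (X j : ℕ) (y u : ℝ) :
    ∑ p ∈ PX X, (if |Real.log p - y| ≤ 1 ∧ (|u| - 1) / (j + 1) ≤ Real.log p then (1 : ℝ) / p
      else 0) ≤ C0 * (j + 3) / (1 + |u|) := by
  have hj : (0 : ℝ) < j + 1 := by positivity
  by_cases hex : ∃ p ∈ PX X, |Real.log p - y| ≤ 1 ∧ (|u| - 1) / (j + 1) ≤ Real.log p
  · obtain ⟨p, hp, h1, h2⟩ := hex
    have h3 : ∑ p ∈ PX X, (if |Real.log p - y| ≤ 1 ∧ (|u| - 1) / (j + 1) ≤ Real.log p then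
        (1 : ℝ) / p else 0) ≤ ∑ p ∈ PX X, (if |Real.log p - y| ≤ 1 then (1 : ℝ) / p else 0) := by
      refine Finset.sum_le_sum fun p _ => ?_
      split_ifs with h h' h'
      · exact le_rfl
      · exact absurd h.1 h'
      · positivity
      · exact le_rfl
    refine h3.trans ((window X y).trans ?_)
    rw [div_le_div_iff₀ (by positivity) (by positivity)]
    rw [abs_le] at h1
    have h4 : |u| - 1 ≤ (j + 1) * Real.log p := by
      rw [div_le_iff₀ hj] at h2
      linarith
    have h5 : Real.log p ≤ |y| + 1 := by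
      have := le_abs_self y
      linarith [h1.2]
    have h6 : 1 + |u| ≤ (j + 3) * (1 + |y|) := by
      have h7 : (j + 1 : ℝ) * Real.log p ≤ (j + 1) * (|y| + 1) :=
        mul_le_mul_of_nonneg_left h5 hj.le
      have h8 := abs_nonneg y
      nlinarith
    have := mul_le_mul_of_nonneg_left h6 C0_pos.le
    linarith
  · rw [Finset.sum_eq_zero fun p hp => if_neg fun h => hex ⟨p, hp, h⟩]
    have := C0_pos
    positivity

/-- Package SPB. -/
theorem t_SPB : Pool.Agent.U398.MV.S_SPB := by
  intro j
  refine ⟨(j + 1) * (C0 * (j + 3)), by have := C0_pos; positivity, ?_⟩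
  intro X w hw ε hε u
  have hw0 : ∀ p : ℕ, 0 ≤ w p / p := fun p => div_nonneg (hw p).1 (by positivity)
  set M : ℝ := (|u| - 1) / (j + 1) with hM
  have hj : (0 : ℝ) < j + 1 := by positivity
  -- split by the coordinate
  have h1 : ∑ f ∈ Fintype.piFinset (fun _ : Fin (j + 1) => PX X),
      (if |(∑ i, ε i * Real.log (f i)) - u| ≤ 1 then ∏ i, w (f i) / (f i : ℝ) else 0) ≤
      ∑ k : Fin (j + 1), ∑ f ∈ Fintype.piFinset (fun _ : Fin (j + 1) => PX X),
      (if |(∑ i, ε i * Real.log (f i)) - u| ≤ 1 ∧ M ≤ Real.log (f k) then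
        ∏ i, w (f i) / (f i : ℝ) else 0) := by
    rw [Finset.sum_comm]
    refine Finset.sum_le_sum fun f hf => ?_
    have hpr : 0 ≤ ∏ i, w (f i) / (f i : ℝ) := Finset.prod_nonneg fun i _ => hw0 _
    split_ifs with h
    · -- some coordinate is large
      have hex : ∃ k, M ≤ Real.log (f k) := by
        by_contra hno
        push Not at hno
        have h2 : |u| - 1 ≤ ∑ i, Real.log (f i) := by
          have h3 : |u| - 1 ≤ |∑ i, ε i * Real.log (f i)| := by
            have h4 := abs_sub_abs_le_abs_sub u (∑ i, ε i * Real.log (f i))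
            rw [abs_sub_comm] at h4
            linarith
          refine h3.trans ((Finset.abs_sum_le_sum_abs _ _).trans ?_)
          refine Finset.sum_le_sum fun i _ => ?_
          have hf1 : (1 : ℝ) ≤ f i := by
            have := Fintype.mem_piFinset.1 hf i
            simp only [Finset.mem_filter, Finset.mem_Icc] at this
            exact_mod_cast this.1.1
          rw [abs_mul, abs_of_nonneg (Real.log_nonneg hf1)]
          rcases hε i with h | h <;> rw [h] <;> simp
        have h5 : ∑ i, Real.log (f i) < ∑ _i : Fin (j + 1), M :=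
          Finset.sum_lt_sum_of_nonempty ⟨0, Finset.mem_univ _⟩ fun i _ => hno i
        rw [Finset.sum_const, Finset.card_univ, Fintype.card_fin, nsmul_eq_mul, hM] at h5
        push_cast at h5
        rw [mul_div_cancel₀ _ hj.ne'] at h5
        linarith
      obtain ⟨k, hk⟩ := hex
      calc ∏ i, w (f i) / (f i : ℝ) = (if True ∧ M ≤ Real.log (f k) then
            ∏ i, w (f i) / (f i : ℝ) else 0) := by rw [if_pos ⟨trivial, hk⟩]
        _ ≤ _ := by
            refine le_trans (le_of_eq ?_) (Finset.single_le_sum (f := fun k : Fin (j + 1) =>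
              if |(∑ i, ε i * Real.log (f i)) - u| ≤ 1 ∧ M ≤ Real.log (f k) then
              ∏ i, w (f i) / (f i : ℝ) else 0) (fun k _ => ?_) (Finset.mem_univ k))
            · rw [if_pos ⟨trivial, hk⟩, if_pos ⟨h, hk⟩]
            · split_ifs
              · exact hpr
              · exact le_rfl
    · refine Finset.sum_nonneg fun k _ => ?_
      split_ifs
      · exact hpr
      · exact le_rfl
  refine h1.trans ?_
  have h2 : ∀ k : Fin (j + 1), ∑ f ∈ Fintype.piFinset (fun _ : Fin (j + 1) => PX X),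
      (if |(∑ i, ε i * Real.log (f i)) - u| ≤ 1 ∧ M ≤ Real.log (f k) then
        ∏ i, w (f i) / (f i : ℝ) else 0) ≤
      (∑ p ∈ PX X, w p / p) ^ j * (C0 * (j + 3) / (1 + |u|)) := by
    intro k
    have h3 : ∑ f ∈ Fintype.piFinset (fun _ : Fin (j + 1) => PX X),
        (if |(∑ i, ε i * Real.log (f i)) - u| ≤ 1 ∧ M ≤ Real.log (f k) then
          ∏ i, w (f i) / (f i : ℝ) else 0) =
        ∑ q ∈ PX X ×ˢ Fintype.piFinset (fun _ : Fin j => PX X),
        (if |(ε k * Real.log q.1 + ∑ i, ε (k.succAbove i) * Real.log (q.2 i)) - u| ≤ 1 ∧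
          M ≤ Real.log q.1 then
          w q.1 / q.1 * ∏ i, w (q.2 i) / (q.2 i : ℝ) else 0) := by
      refine Finset.sum_nbij' (fun f => (f k, fun i => f (k.succAbove i)))
        (fun q => k.insertNth q.1 q.2) ?_ ?_ ?_ ?_ ?_
      · intro f hf
        rw [Fintype.mem_piFinset] at hf
        rw [Finset.mem_product, Fintype.mem_piFinset]
        exact ⟨hf k, fun i => hf _⟩
      · intro q hq
        rw [Finset.mem_product, Fintype.mem_piFinset] at hq
        rw [Fintype.mem_piFinset, Fin.forall_iff_succAbove k]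
        refine ⟨by simpa using hq.1, fun i => by simpa using hq.2 i⟩
      · intro f hf
        exact Fin.insertNth_self_removeNth k f
      · intro q hq
        ext i
        · simp
        · simp
      · intro f hf
        rw [Fin.sum_univ_succAbove _ k, Fin.prod_univ_succAbove _ k]
    rw [h3, Finset.sum_product_right]
    have h4 : ∀ g ∈ Fintype.piFinset (fun _ : Fin j => PX X),
        ∑ p ∈ PX X, (if |(ε k * Real.log p + ∑ i, ε (k.succAbove i) * Real.log (g i)) - u| ≤ 1 ∧
          M ≤ Real.log p then w p / p * ∏ i, w (g i) / (g i : ℝ) else 0) ≤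
        (∏ i, w (g i) / (g i : ℝ)) * (C0 * (j + 3) / (1 + |u|)) := by
      intro g hg
      set R := ∑ i, ε (k.succAbove i) * Real.log (g i) with hR
      have hW : 0 ≤ ∏ i, w (g i) / (g i : ℝ) := Finset.prod_nonneg fun i _ => hw0 _
      refine le_trans ?_ (mul_le_mul_of_nonneg_left (inner X j (ε k * (u - R)) u) hW)
      rw [Finset.mul_sum]
      refine Finset.sum_le_sum fun p hp => ?_
      have hcond : |(ε k * Real.log p + R) - u| = |Real.log p - ε k * (u - R)| := by
        rcases hε k with h | h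
        · rw [h]; congr 1; ring
        · rw [h, ← abs_neg]; congr 1; ring
      rw [hcond]
      split_ifs with h
      · rw [mul_comm]
        refine mul_le_mul_of_nonneg_left ?_ hW
        exact div_le_div_of_nonneg_right (hw p).2 (by positivity)
      · simp
    refine (Finset.sum_le_sum h4).trans ?_
    rw [← Finset.sum_mul]
    refine le_of_eq ?_
    congr 1
    rw [← Finset.prod_univ_sum (fun _ : Fin j => PX X) (fun _ p => w p / (p : ℝ))]
    simp
  refine (Finset.sum_le_sum fun k _ => h2 k).trans (le_of_eq ?_)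
  rw [Finset.sum_const, Finset.card_univ, Fintype.card_fin, nsmul_eq_mul]
  push_cast
  ring

end

end Pool.Agent.U668.MV3
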